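import Mathlib

/-!
# Sequential pseudocompactness: definitions
-/

set_option autoImplicit false

namespace Pool.Agent.Q307.Sir

open Topology Filter Set

/-- `X` is sequentially pseudocompact. -/
def SeqPseudocompact (X : Type) [TopologicalSpace X] : Prop :=
  ∀ U : ℕ → Set X, (∀ n, IsOpen (U n) ∧ (U n).Nonempty) →
    ∃ (J : Set ℕ) (x : X), J.Infinite ∧
      ∀ W : Set X, IsOpen W → x ∈ W → {n ∈ J | W ∩ U n = ∅}.Finite

/-- `X` is selectively sequentially pseudocompact. -/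
def SelSeqPseudocompact (X : Type) [TopologicalSpace X] : Prop :=
  ∀ U : ℕ → Set X, (∀ n, IsOpen (U n) ∧ (U n).Nonempty) →
    ∃ x : ℕ → X, (∀ n, x n ∈ U n) ∧
      ∃ φ : ℕ → ℕ, StrictMono φ ∧ ∃ y : X, Tendsto (x ∘ φ) atTop (𝓝 y)

end Pool.Agent.Q307.Sir
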