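import Pool.Agent.Q307.Sir.Defs

/-!
# A pseudocompact Boolean group without convergent sequences

The group `G` is a subgroup of `2 ^ I` which projects onto all countable subproducts and has, for
every sequence of different elements, a coordinate on which the sequence takes both values
infinitely often.
-/

set_option autoImplicit false

namespace Pool.Agent.Q307.Sir

open Topology Filter Set Cardinal

/-- The index set of the basis. -/
abbrev E : Type := ℝ

/-- The free Boolean group. -/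
abbrev F : Type := E →₀ ZMod 2

/-- The index set of the coordinates. -/
abbrev I : Type := {f : ℕ → F // Function.Injective f}

theorem mk_F : #F = 𝔠 := by
  rw [mk_finsupp_lift_of_infinite]
  have h1 : #E = 𝔠 := mk_real
  have h2 : ((2 : ℕ) : Cardinal.{0}) ≤ 𝔠 := (nat_lt_aleph0 2).le.trans aleph0_le_continuum
  simp only [lift_id, h1]
  refine max_eq_left ?_
  simpa using h2

theorem mk_I_le : #I ≤ 𝔠 := by
  refine (mk_subtype_le _).trans ?_
  have h1 : #(ℕ → F) = 𝔠 ^ ℵ₀ := by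
    rw [mk_arrow]
    simp only [mk_eq_aleph0, lift_aleph0, lift_id, mk_F]
  rw [h1, continuum_power_aleph0]

instance : Nonempty I := by
  have h : ℵ₀ ≤ #F := by rw [mk_F]; exact aleph0_le_continuum
  obtain ⟨f⟩ := (aleph0_le_mk_iff.mp h) |> fun h' => (⟨@Infinite.natEmbedding F h'⟩ : Nonempty (ℕ ↪ F))
  exact ⟨⟨f, f.injective⟩⟩

theorem exists_dec : ∃ dec : E → (ℕ → I) × (ℕ → ZMod 2), ∀ p, ¬ (dec ⁻¹' {p}).Countable := by
  have h1 : #(((ℕ → I) × (ℕ → ZMod 2)) × ℝ) ≤ #E := by
    have hI : #(ℕ → I) ≤ 𝔠 := by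
      rw [mk_arrow]
      simp only [mk_eq_aleph0, lift_aleph0, lift_id]
      calc #I ^ ℵ₀ ≤ 𝔠 ^ ℵ₀ := power_le_power_right mk_I_le
        _ = 𝔠 := continuum_power_aleph0
    have h2 : #(ℕ → ZMod 2) ≤ 𝔠 := by
      rw [mk_arrow]
      simp only [mk_eq_aleph0, lift_aleph0, lift_id]
      calc #(ZMod 2) ^ ℵ₀ ≤ 𝔠 ^ ℵ₀ := power_le_power_right
            ((mk_le_aleph0).trans aleph0_le_continuum)
        _ = 𝔠 := continuum_power_aleph0
    rw [mk_prod, mk_prod]
    simp only [lift_id, mk_real]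
    calc #(ℕ → I) * #(ℕ → ZMod 2) * 𝔠 ≤ 𝔠 * 𝔠 * 𝔠 :=
          mul_le_mul' (mul_le_mul' hI h2) le_rfl
      _ = 𝔠 := by rw [continuum_mul_self, continuum_mul_self]
  obtain ⟨g⟩ := h1
  have hne : Nonempty (((ℕ → I) × (ℕ → ZMod 2)) × ℝ) := inferInstance
  refine ⟨fun e => (Function.invFun g e).1, fun p hcount => ?_⟩
  have h3 : (range fun r : ℝ => g (p, r)).Countable := by
    refine hcount.mono ?_
    rintro _ ⟨r, rfl⟩
    show (Function.invFun g (g (p, r))).1 = p
    rw [Function.leftInverse_invFun g.injective]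
  have h4 : Function.Injective fun r : ℝ => g (p, r) := fun r s h =>
    congrArg Prod.snd (g.injective h)
  have h5 : Countable ℝ := by
    have := h3.to_subtype
    exact Function.Injective.countable (f := fun r => (⟨g (p, r), mem_range_self r⟩ :
      range fun r : ℝ => g (p, r))) (fun a b h => h4 (congrArg Subtype.val h))
  exact not_countable (α := ℝ) h5

/-- For every sequence of different elements there is a linear functional which takes both values
infinitely often. -/
theorem exists_psi (f : ℕ → F) (hf : Function.Injective f) : ∃ ψ : E → ZMod 2,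
    {n | Finsupp.linearCombination (ZMod 2) ψ (f n) = 0}.Infinite ∧
    {n | Finsupp.linearCombination (ZMod 2) ψ (f n) = 1}.Infinite := by
  classical
  obtain ⟨b, hb1, hb2, hb3⟩ := exists_linearIndependent (ZMod 2) (range f)
  have hbinf : b.Infinite := by
    intro hfin
    have h1 : (Submodule.span (ZMod 2) b : Set F).Finite := by
      have h2 : Module.Finite (ZMod 2) (Submodule.span (ZMod 2) b) :=
        Module.Finite.span_of_finite _ hfin
      have h3 : Finite (Submodule.span (ZMod 2) b) := Module.finite_of_finite (ZMod 2)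
      exact Set.toFinite _
    rw [hb2] at h1
    exact (infinite_range_of_injective hf) (h1.subset Submodule.subset_span)
  -- split `b`
  set e := Set.Infinite.natEmbedding b hbinf with he
  have hb4 : LinearIndepOn (ZMod 2) id b := hb3
  set Bs := Module.Basis.extend hb4 with hBs
  have hsub : b ⊆ hb4.extend (subset_univ b) := hb4.subset_extend _
  set T : Set F := {x | ∃ n, Odd n ∧ x = (e n).1} with hT
  set Λ : F →ₗ[ZMod 2] ZMod 2 := Bs.constr (ZMod 2) (fun x => if x.1 ∈ T then 1 else 0) with hΛ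
  have hval : ∀ x ∈ b, Λ x = if x ∈ T then 1 else 0 := by
    intro x hx
    have h1 : Bs ⟨x, hsub hx⟩ = x := by
      rw [hBs, Module.Basis.extend_apply_self]
    have h2 := Bs.constr_basis (ZMod 2) (fun x => if x.1 ∈ T then (1 : ZMod 2) else 0) ⟨x, hsub hx⟩
    rw [h1] at h2
    exact h2
  have hval1 : ∀ n, Odd n → Λ (e n).1 = 1 := by
    intro n hn
    rw [hval _ (e n).2, if_pos ⟨n, hn, rfl⟩]
  have hval0 : ∀ n, ¬ Odd n → Λ (e n).1 = 0 := by
    intro n hn
    rw [hval _ (e n).2, if_neg]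
    rintro ⟨m, hm, hme⟩
    have := e.injective (Subtype.ext hme)
    exact hn (this ▸ hm)
  have hex : ∀ n, ∃ k, f k = (e n).1 := fun n => hb1 (e n).2
  choose k hk using hex
  have hkinj : Function.Injective k := by
    intro m n hmn
    apply e.injective
    apply Subtype.ext
    rw [← hk, ← hk, hmn]
  have hΛψ : ∀ x, Finsupp.linearCombination (ZMod 2) (fun α => Λ (Finsupp.single α 1)) x = Λ x := by
    intro x
    have : Finsupp.linearCombination (ZMod 2) (fun α => Λ (Finsupp.single α 1)) = Λ := by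
      refine Finsupp.lhom_ext' fun α => LinearMap.ext_ring ?_
      simp
    rw [this]
  refine ⟨fun α => Λ (Finsupp.single α 1), ?_, ?_⟩
  · have h1 : (k '' {n | ¬ Odd n}).Infinite := by
      refine Set.Infinite.image hkinj.injOn ?_
      refine infinite_of_injective_forall_mem (f := fun n : ℕ => 2 * n) (fun a b h => by
        simpa using h) ?_
      intro n
      show ¬ Odd (2 * n)
      simp
    refine h1.mono ?_
    rintro _ ⟨n, hn, rfl⟩
    show Finsupp.linearCombination (ZMod 2) (fun α => Λ (Finsupp.single α 1)) (f (k n)) = 0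
    rw [hΛψ, hk, hval0 n hn]
  · have h1 : (k '' {n | Odd n}).Infinite := by
      refine Set.Infinite.image hkinj.injOn ?_
      refine infinite_of_injective_forall_mem (f := fun n : ℕ => 2 * n + 1) (fun a b h => by
        simpa using h) ?_
      intro n
      exact ⟨n, rfl⟩
    refine h1.mono ?_
    rintro _ ⟨n, hn, rfl⟩
    show Finsupp.linearCombination (ZMod 2) (fun α => Λ (Finsupp.single α 1)) (f (k n)) = 1
    rw [hΛψ, hk, hval1 n hn]

/-- The coordinates. -/
theorem exists_phi : ∃ φ : I → E → ZMod 2,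
    (∀ ξ : I, {n | Finsupp.linearCombination (ZMod 2) (φ ξ) (ξ.1 n) = 0}.Infinite ∧
      {n | Finsupp.linearCombination (ZMod 2) (φ ξ) (ξ.1 n) = 1}.Infinite) ∧
    ∀ S : Set I, S.Countable → ∀ v : I → ZMod 2, ∃ α, ∀ ξ ∈ S, φ ξ α = v ξ := by
  classical
  obtain ⟨dec, hdec⟩ := exists_dec
  have h0 : ∀ ξ : I, ∃ ψ : E → ZMod 2,
      {n | Finsupp.linearCombination (ZMod 2) ψ (ξ.1 n) = 0}.Infinite ∧
      {n | Finsupp.linearCombination (ZMod 2) ψ (ξ.1 n) = 1}.Infinite :=
    fun ξ => exists_psi ξ.1 ξ.2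
  choose ψ hψ using h0
  let A : I → Set E := fun ξ => ⋃ n, ((ξ.1 n).support : Set E)
  have hA : ∀ ξ, (A ξ).Countable := fun ξ => countable_iUnion fun n => Finset.countable_toSet _
  let φ : I → E → ZMod 2 := fun ξ α => if α ∈ A ξ then ψ ξ α else
    if h : ∃ k, (dec α).1 k = ξ then (dec α).2 h.choose else 0
  have hφ : ∀ ξ n, Finsupp.linearCombination (ZMod 2) (φ ξ) (ξ.1 n) =
      Finsupp.linearCombination (ZMod 2) (ψ ξ) (ξ.1 n) := by
    intro ξ n
    rw [Finsupp.linearCombination_apply, Finsupp.linearCombination_apply, Finsupp.sum, Finsupp.sum]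
    refine Finset.sum_congr rfl fun α hα => ?_
    have : α ∈ A ξ := mem_iUnion.mpr ⟨n, hα⟩
    simp only [φ, if_pos this]
  refine ⟨φ, fun ξ => ?_, fun S hS v => ?_⟩
  · simp only [hφ]
    exact hψ ξ
  · rcases S.eq_empty_or_nonempty with rfl | hne
    · exact ⟨0, by simp⟩
    obtain ⟨C, rfl⟩ := hS.exists_eq_range hne
    have h1 : (⋃ k, A (C k)).Countable := countable_iUnion fun k => hA _
    have h2 : (dec ⁻¹' {(C, fun k => v (C k))} \ ⋃ k, A (C k)).Nonempty := by
      by_contra hcon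
      rw [not_nonempty_iff_eq_empty, sdiff_eq_empty] at hcon
      exact hdec _ (h1.mono hcon)
    obtain ⟨α, hα1, hα2⟩ := h2
    refine ⟨α, ?_⟩
    rintro _ ⟨k, rfl⟩
    have h3 : α ∉ A (C k) := fun h => hα2 (mem_iUnion.mpr ⟨k, h⟩)
    have hd : dec α = (C, fun k => v (C k)) := hα1
    have h4 : ∃ j, (dec α).1 j = C k := ⟨k, by rw [hd]⟩
    show (if α ∈ A (C k) then ψ (C k) α else
      if h : ∃ j, (dec α).1 j = C k then (dec α).2 h.choose else 0) = v (C k)
    rw [if_neg h3, dif_pos h4]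
    have h5 := h4.choose_spec
    have h6 : C h4.choose = C k := (congrFun (congrArg Prod.fst hd) h4.choose).symm.trans h5
    exact (congrFun (congrArg Prod.snd hd) h4.choose).trans (congrArg v h6)

section

variable (φ : I → E → ZMod 2)

/-- The group. -/
noncomputable def Grp : AddSubgroup (I → ZMod 2) :=
  (LinearMap.pi fun ξ : I => Finsupp.linearCombination (ZMod 2) (φ ξ)).toAddMonoidHom.range

variable {φ}

theorem mem_Grp {g : I → ZMod 2} : g ∈ Grp φ ↔
    ∃ f : F, ∀ ξ, Finsupp.linearCombination (ZMod 2) (φ ξ) f = g ξ := by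
  constructor
  · rintro ⟨f, hf⟩
    exact ⟨f, fun ξ => congrFun hf ξ⟩
  · rintro ⟨f, hf⟩
    exact ⟨f, funext hf⟩

variable (h1 : ∀ ξ : I, {n | Finsupp.linearCombination (ZMod 2) (φ ξ) (ξ.1 n) = 0}.Infinite ∧
      {n | Finsupp.linearCombination (ZMod 2) (φ ξ) (ξ.1 n) = 1}.Infinite)
  (h2 : ∀ S : Set I, S.Countable → ∀ v : I → ZMod 2, ∃ α, ∀ ξ ∈ S, φ ξ α = v ξ)

include h2 in
theorem dense (S : Set I) (hS : S.Countable) (v : I → ZMod 2) :
    ∃ g : Grp φ, ∀ ξ ∈ S, g.1 ξ = v ξ := by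
  obtain ⟨α, hα⟩ := h2 S hS v
  refine ⟨⟨fun ξ => φ ξ α, mem_Grp.mpr ⟨Finsupp.single α 1, fun ξ => by simp⟩⟩, hα⟩

theorem basic {U : Set (Grp φ)} (hU : IsOpen U) {p : Grp φ} (hp : p ∈ U) :
    ∃ D : Finset I, ∀ g : Grp φ, (∀ ξ ∈ D, g.1 ξ = p.1 ξ) → g ∈ U := by
  obtain ⟨V, hV, rfl⟩ := isOpen_induced_iff.mp hU
  obtain ⟨D, u, hu, hDV⟩ := isOpen_pi_iff.mp hV p.1 hp
  refine ⟨D, fun g hg => hDV ?_⟩
  intro ξ hξ
  rw [hg ξ hξ]
  exact (hu ξ hξ).2

include h2 in
theorem seqPseudocompact : SeqPseudocompact (Grp φ) := by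
  classical
  intro U hU
  have hp : ∀ n, ∃ (p : Grp φ) (D : Finset I), ∀ g : Grp φ, (∀ ξ ∈ D, g.1 ξ = p.1 ξ) → g ∈ U n := by
    intro n
    obtain ⟨p, hp⟩ := (hU n).2
    obtain ⟨D, hD⟩ := basic (hU n).1 hp
    exact ⟨p, D, hD⟩
  choose p D hD using hp
  set S : Set I := ⋃ n, (D n : Set I) with hS
  have hSc : S.Countable := countable_iUnion fun n => Finset.countable_toSet _
  have : Countable S := hSc.to_subtype
  obtain ⟨y, τ, hτ, hlim⟩ := CompactSpace.tendsto_subseq (fun n => fun ξ : S => (p n).1 ξ.1)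
  obtain ⟨x, hx⟩ := dense h2 S hSc (fun ξ => if h : ξ ∈ S then y ⟨ξ, h⟩ else 0)
  have hx' : ∀ ξ : S, x.1 ξ.1 = y ξ := by
    intro ξ
    rw [hx ξ.1 ξ.2, dif_pos ξ.2]
  refine ⟨range τ, x, infinite_range_of_injective hτ.injective, fun W hW hxW => ?_⟩
  obtain ⟨B, hB⟩ := basic hW hxW
  have hev : ∀ᶠ n in atTop, ∀ ξ ∈ B, ξ ∈ S → (p (τ n)).1 ξ = x.1 ξ := by
    refine (eventually_all_finset B).mpr ?_
    intro ξ _
    by_cases h : ξ ∈ S
    · have h3 := (tendsto_pi_nhds.mp hlim) ⟨ξ, h⟩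
      have h4 : ∀ᶠ n in atTop, (p (τ n)).1 ξ = y ⟨ξ, h⟩ := by
        have := h3.eventually (IsOpen.mem_nhds (isOpen_discrete {y ⟨ξ, h⟩}) rfl)
        exact this
      filter_upwards [h4] with n hn _
      rw [hn, ← hx' ⟨ξ, h⟩]
    · exact Eventually.of_forall fun n hn => absurd hn h
  obtain ⟨N, hN⟩ := eventually_atTop.mp hev
  refine ((finite_lt_nat N).image τ).subset ?_
  rintro _ ⟨⟨n, rfl⟩, hn⟩
  by_contra hcon
  have hn' : N ≤ n := by
    by_contra hlt
    exact hcon ⟨n, not_le.mp hlt, rfl⟩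
  obtain ⟨g, hg⟩ := dense h2 (↑(D (τ n)) ∪ ↑B) ((Finset.countable_toSet _).union
    (Finset.countable_toSet _)) (fun ξ => if ξ ∈ D (τ n) then (p (τ n)).1 ξ else x.1 ξ)
  have hgU : g ∈ U (τ n) := by
    apply hD
    intro ξ hξ
    rw [hg ξ (Or.inl hξ), if_pos hξ]
  have hgW : g ∈ W := by
    apply hB
    intro ξ hξ
    rw [hg ξ (Or.inr hξ)]
    by_cases h : ξ ∈ D (τ n)
    · rw [if_pos h]
      exact hN n hn' ξ hξ (mem_iUnion.mpr ⟨_, h⟩)
    · rw [if_neg h]
  have : g ∈ W ∩ U (τ n) := ⟨hgW, hgU⟩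
  rw [hn] at this
  exact this

theorem infinite_I : Infinite I := by
  obtain ⟨f, hf⟩ := (inferInstance : Nonempty I)
  refine Infinite.of_injective (fun k : ℕ => (⟨fun n => f (n + k), fun a b h => by
    have := hf h; omega⟩ : I)) ?_
  intro a b hab
  have h := congrFun (congrArg Subtype.val hab) 0
  have := hf h
  omega

include h1 h2 in
theorem not_selSeqPseudocompact : ¬ SelSeqPseudocompact (Grp φ) := by
  intro hsel
  have := infinite_I
  set ξ := Infinite.natEmbedding I with hξ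
  obtain ⟨x, hx, τ, hτ, y, hlim⟩ := hsel (fun n => {g | (∀ i < n, g.1 (ξ i) = 0) ∧ g.1 (ξ n) = 1}) (by
    intro n
    constructor
    · have hev : ∀ i : I, Continuous fun g : Grp φ => g.1 i := fun i =>
        (continuous_apply i).comp continuous_subtype_val
      have h3 : {g : Grp φ | (∀ i < n, g.1 (ξ i) = 0) ∧ g.1 (ξ n) = 1} =
          (⋂ i ∈ Iio n, (fun g : Grp φ => g.1 (ξ i)) ⁻¹' {0}) ∩
          (fun g : Grp φ => g.1 (ξ n)) ⁻¹' {1} := by
        ext g
        simp
      rw [h3]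
      refine IsOpen.inter ((finite_Iio n).isOpen_biInter fun i _ =>
        (isOpen_discrete _).preimage (hev _)) ((isOpen_discrete _).preimage (hev _))
    · classical
      obtain ⟨g, hg⟩ := dense h2 (range ξ) (countable_range _) (fun i => if i = ξ n then 1 else 0)
      refine ⟨g, fun i hi => ?_, ?_⟩
      · rw [hg _ (mem_range_self i), if_neg]
        exact fun h => (ne_of_lt hi) (ξ.injective h)
      · rw [hg _ (mem_range_self n), if_pos rfl])
  have hxinj : Function.Injective x := by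
    intro m n hmn
    rcases lt_trichotomy m n with h | h | h
    · have e1 := (hx n).1 m h
      have e2 := (hx m).2
      rw [hmn, e1] at e2
      exact absurd e2 (by decide)
    · exact h
    · have e1 := (hx m).1 n h
      have e2 := (hx n).2
      rw [← hmn, e1] at e2
      exact absurd e2 (by decide)
  have hrep : ∀ n, ∃ f : F, ∀ i, Finsupp.linearCombination (ZMod 2) (φ i) f = (x (τ n)).1 i :=
    fun n => mem_Grp.mp (x (τ n)).2
  choose f hf using hrep
  have hfinj : Function.Injective f := by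
    intro m n hmn
    apply hτ.injective
    apply hxinj
    apply Subtype.ext
    funext i
    rw [← hf, ← hf, hmn]
  obtain ⟨h3, h4⟩ := h1 ⟨f, hfinj⟩
  simp only [hf] at h3 h4
  have hev : Continuous fun g : Grp φ => g.1 ⟨f, hfinj⟩ :=
    (continuous_apply _).comp continuous_subtype_val
  have h5 : Tendsto (fun n => (x (τ n)).1 ⟨f, hfinj⟩) atTop (𝓝 (y.1 ⟨f, hfinj⟩)) :=
    (hev.tendsto y).comp hlim
  have h6 : ∀ᶠ n in atTop, (x (τ n)).1 ⟨f, hfinj⟩ = y.1 ⟨f, hfinj⟩ :=
    h5.eventually (IsOpen.mem_nhds (isOpen_discrete {y.1 ⟨f, hfinj⟩}) rfl)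
  obtain ⟨N, hN⟩ := eventually_atTop.mp h6
  obtain ⟨m, hm, hmN⟩ := h3.exists_gt N
  obtain ⟨n, hn, hnN⟩ := h4.exists_gt N
  have e1 := hN m hmN.le
  have e2 := hN n hnN.le
  rw [(hm : (x (τ m)).1 ⟨f, hfinj⟩ = 0)] at e1
  rw [(hn : (x (τ n)).1 ⟨f, hfinj⟩ = 1), ← e1] at e2
  exact absurd e2 (by decide)

end

theorem exists_group : ∃ (G : Type) (_ : AddCommGroup G) (_ : TopologicalSpace G)
    (_ : IsTopologicalAddGroup G) (_ : T2Space G), (∀ g : G, g + g = 0) ∧
    SeqPseudocompact G ∧ ¬ SelSeqPseudocompact G := by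
  obtain ⟨φ, h1, h2⟩ := exists_phi
  refine ⟨Grp φ, inferInstance, inferInstance, inferInstance, inferInstance, fun g => ?_,
    seqPseudocompact h2, not_selSeqPseudocompact h1 h2⟩
  apply Subtype.ext
  funext ξ
  show g.1 ξ + g.1 ξ = 0
  exact CharTwo.add_self_eq_zero _

end Pool.Agent.Q307.Sir
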